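import Pool.Agent.Lib.MP_9a5726_an.Prod

/-!
# The relative boundary of a Herman-ring parameter class is a product with `ℝ³`
-/

namespace Pool.Agent.Results.MP_9a5726_an.ProductStructure

open Pool.Agent.Lib.HermanClass

/-- For every `d ≥ 2`, every real `α` and every rational map `f₀` of degree `d` with an invariant
Herman ring `A₀` of rotation number `α`, the relative boundary of the class `H_{d,α}` of
`(f₀, A₀)` in its closure is homeomorphic to `N × ℝ³` for a closed subset `N` of `R_d` which is
contained in the relative boundary. -/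
theorem result (d : ℕ) (hd : 2 ≤ d) (α : ℝ) (f₀ : RatMap d) (A₀ : Set (OnePoint ℂ))
    (_h₀ : IsHermanRing f₀ α A₀) :
    ∃ N : Set (RatMap d), IsClosed N ∧ N ⊆ relBoundary (hermanClass d α f₀ A₀) ∧
      Nonempty (relBoundary (hermanClass d α f₀ A₀) ≃ₜ N × EuclideanSpace ℝ (Fin 3)) :=
  product hd _ (fun g _ hf => act_mem_relBoundary (by omega) g hf) (isClosed_relBoundary _)

end Pool.Agent.Results.MP_9a5726_an.ProductStructure
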